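import Pool.Agent.LibMV18.Ctx

set_option autoImplicit false

/-! Evaluation of packed polynomials of `LibMV18` at the composite point `(v1, .., v9, F1, .., F4)` over `x, y, z, v1, .., v9`
(internal order of the source variables: `v1 .. v9 = 0 .. 8`, `x, y, z = 9, 10, 11`). -/

namespace Pool.Agent.LibLH10

open MvPolynomial Pool.Agent.Mond61 Pool.Agent.LibMV18

/-- the packed `F1, .., F4` -/
def FN (d : ℕ) : ℕ :=
  cond (Nat.beq d (nat_lit 9)) (nat_lit 0x1fffb1001fffa0001fff99003) (cond (Nat.beq d (nat_lit 10)) (nat_lit 0x1fffb3001fff92001fffb9001fffaa004)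
    (cond (Nat.beq d (nat_lit 11)) (nat_lit 0x1fffa5001fff94001fffa9001fffbb004) (nat_lit 0x1fffb8001fffa7001fff96001fffba004)))

/-- the variable `d` -/
def vl (d : ℕ) : ℕ := Nat.add (nat_lit 1) (Nat.mul (nat_lit 4096) (Nat.add (nat_lit 2097136) d))

/-- the constant `k` -/
def cl (k : ℕ) : ℕ := Nat.add (nat_lit 1) (Nat.mul (nat_lit 4096) (Nat.add (nat_lit 1048575) (Nat.mul (nat_lit 1048576) k)))

/-- the composite point -/
def cx {A : Type*} [CommSemiring A] (x : ℕ → A) (d : ℕ) : A := if d < 9 then x d else pv x (FN d)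

/-- coordinate `d` of the composite point -/
def gE (d : ℕ) : E :=
  cond (Nat.blt d (nat_lit 9)) (E.t (vl d)) (cond (Nat.blt d (nat_lit 13)) (E.t (FN d)) (E.t (cl (nat_lit 1))))

/-- its weight -/
def gW (d : ℕ) : ℕ := cond (Nat.blt d (nat_lit 9)) (nat_lit 1) (cond (Nat.blt d (nat_lit 13)) (nat_lit 2) (nat_lit 0))

/-- a term at the composite point -/
def tE (c : ℕ) : E :=
  E.mul (nat_lit 0) (E.t (cl (tk c))) (E.mul (gW (td c (nat_lit 0))) (gE (td c (nat_lit 0)))
    (E.mul (gW (td c (nat_lit 1))) (gE (td c (nat_lit 1))) (E.mul (gW (td c (nat_lit 2))) (gE (td c (nat_lit 2)))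
      (E.mul (gW (td c (nat_lit 3))) (gE (td c (nat_lit 3))) (gE (td c (nat_lit 4)))))))

/-- a packed polynomial at the composite point -/
noncomputable def pE (N : ℕ) : E :=
  Nat.rec (motive := fun _ => E) (E.t (nat_lit 0)) (fun i ih => E.add (tE (tm N i)) ih) (tn N)

section
variable {A : Type*} [CommSemiring A] (x : ℕ → A)

theorem pv_single (c : ℕ) (hc : c < 4294967296) : pv x (1 + 4096 * c) = tv x c := by
  unfold pv
  have h1 : tn (1 + 4096 * c) = 1 := by
    change (1 + 4096 * c) % 4096 = 1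
    omega
  have h2 : tm (1 + 4096 * c) 0 = c := by
    change ((1 + 4096 * c) >>> (12 + 32 * 0)) % 4294967296 = c
    rw [Nat.shiftRight_eq_div_pow]
    norm_num
    omega
  rw [h1, Finset.sum_range_one, h2]

theorem pv_vl (d : ℕ) (hd : d < 9) : pv x (vl d) = x d := by
  have h : pv x (vl d) = tv x (2097136 + d) := pv_single x (2097136 + d) (by omega)
  rw [h]
  unfold tv
  have k : tk (2097136 + d) = 1 := by
    interval_cases d <;> rfl
  have d0 : td (2097136 + d) 0 = d := by
    interval_cases d <;> rfl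
  have d1 : td (2097136 + d) 1 = 15 := by
    interval_cases d <;> rfl
  have d2 : td (2097136 + d) 2 = 15 := by
    interval_cases d <;> rfl
  have d3 : td (2097136 + d) 3 = 15 := by
    interval_cases d <;> rfl
  have d4 : td (2097136 + d) 4 = 15 := by
    interval_cases d <;> rfl
  rw [k, d0, d1, d2, d3, d4]
  have h15 : gx x 15 = 1 := by unfold gx; simp
  have hd' : gx x d = x d := by unfold gx; rw [if_pos (by omega)]
  rw [h15, hd', Nat.cast_one]
  ring

theorem pv_cl (k : ℕ) (hk : k < 4096) : pv x (cl k) = (k : A) := by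
  have h : pv x (cl k) = tv x (1048575 + 1048576 * k) := pv_single x (1048575 + 1048576 * k) (by omega)
  rw [h]
  unfold tv
  have k' : tk (1048575 + 1048576 * k) = k := by
    change (1048575 + 1048576 * k) >>> 20 = k
    rw [Nat.shiftRight_eq_div_pow]
    norm_num
    omega
  have hd : ∀ j < 5, td (1048575 + 1048576 * k) j = 15 := by
    intro j hj
    change ((1048575 + 1048576 * k) >>> (4 * j)) % 16 = 15
    rw [Nat.shiftRight_eq_div_pow]
    interval_cases j <;> norm_num <;> omega
  rw [k', hd 0 (by norm_num), hd 1 (by norm_num), hd 2 (by norm_num), hd 3 (by norm_num), hd 4 (by norm_num)]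
  have h15 : gx x 15 = 1 := by unfold gx; simp
  rw [h15]
  ring

theorem ev_gE (d : ℕ) : (gE d).ev x = gx (cx x) d := by
  unfold gE
  cases h : Nat.blt d 9 with
  | true =>
    have hd : d < 9 := by simpa [Nat.blt_eq] using h
    change pv x (vl d) = _
    rw [pv_vl x d hd]
    unfold gx cx
    rw [if_pos (by omega), if_pos hd]
  | false =>
    have hd : ¬ d < 9 := by
      intro h'
      have : Nat.blt d 9 = true := by simpa [Nat.blt_eq] using h'
      rw [this] at h
      exact absurd h (by simp)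
    cases h2 : Nat.blt d 13 with
    | true =>
      have hd2 : d < 13 := by simpa [Nat.blt_eq] using h2
      change pv x (FN d) = _
      unfold gx cx
      rw [if_pos hd2, if_neg hd]
    | false =>
      have hd2 : ¬ d < 13 := by
        intro h'
        have : Nat.blt d 13 = true := by simpa [Nat.blt_eq] using h'
        rw [this] at h2
        exact absurd h2 (by simp)
      change pv x (cl 1) = _
      rw [pv_cl x 1 (by norm_num)]
      unfold gx
      rw [if_neg hd2, Nat.cast_one]

theorem tk_lt (N i : ℕ) : tk (tm N i) < 4096 := by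
  have h : tm N i < 4294967296 := Nat.mod_lt _ (by norm_num)
  change (tm N i) >>> 20 < 4096
  rw [Nat.shiftRight_eq_div_pow]
  norm_num
  omega

theorem ev_tE (c : ℕ) (hc : tk c < 4096) : (tE c).ev x = tv (cx x) c := by
  unfold tE
  change pv x (cl (tk c)) * ((gE (td c 0)).ev x * ((gE (td c 1)).ev x * ((gE (td c 2)).ev x * ((gE (td c 3)).ev x *
    (gE (td c 4)).ev x)))) = _
  rw [pv_cl x _ hc, ev_gE, ev_gE, ev_gE, ev_gE, ev_gE]
  unfold tv
  ring

theorem ev_pE (N : ℕ) : (pE N).ev x = pv (cx x) N := by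
  have h : ∀ n, (Nat.rec (motive := fun _ => E) (E.t (nat_lit 0)) (fun i ih => E.add (tE (tm N i)) ih) n : E).ev x =
      ∑ i ∈ Finset.range n, tv (cx x) (tm N i) := by
    intro n
    induction n with
    | zero =>
      change pv x 0 = _
      rfl
    | succ n ih =>
      rw [Finset.sum_range_succ, ← ih, ← ev_tE x _ (tk_lt N n)]
      exact add_comm _ _
  exact h _

end

/-- `∂F_j/∂x, ∂F_j/∂y, ∂F_j/∂z` -/
def dX : List (List ℕ) :=
  [[0x2ffff9001, 0x1ffff0001, 0x1ffff1001], [0x1ffff2001ffffb002, 0x2ffffa001, 0x1ffff3001ffff9002],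
    [0x1ffff4001ffffa002, 0x1ffff5001ffff9002, 0x2ffffb001], [0x1ffff6001, 0x1ffff7001ffffb002, 0x1ffff8001ffffa002]]

/-- the nonzero `∂F_j/∂v_t`: pairs `(t, derivative)` -/
def dV : List (List (ℕ × ℕ)) :=
  [[(0, 0x1ffffa001), (1, 0x1ffffb001)], [(2, 0x1ffff9001), (3, 0x1ffffb001)], [(4, 0x1ffff9001), (5, 0x1ffffa001)],
    [(6, 0x1ffff9001), (7, 0x1ffffa001), (8, 0x1ffffb001)]]

/-- positive or negative part -/
def sel (b : Bool) (X : ℕ × ℕ) : ℕ := cond b X.1 X.2

/-- `∑ ξ_a ∂_a F_j`, one sign -/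
def sX (wt : ℕ) (b : Bool) : List (ℕ × ℕ) → List ℕ → E
  | [], _ => E.t (nat_lit 0)
  | _ :: _, [] => E.t (nat_lit 0)
  | X :: L, d :: M => E.add (E.mul (Nat.add (nat_lit 1) wt) (E.t (sel b X)) (E.t d)) (sX wt b L M)

/-- `∑ η_t ∂_(v_t) F_j`, one sign -/
noncomputable def sV (wt : ℕ) (b : Bool) (et : List (ℕ × ℕ)) : List (ℕ × ℕ) → E
  | [] => E.t (nat_lit 0)
  | m :: M => E.add (E.mul (Nat.add (nat_lit 1) wt) (pE (sel b (et.getD m.1 (0, 0)))) (E.t m.2)) (sV wt b et M)

/-- one side of the identity -/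
noncomputable def sd (wt : ℕ) (b : Bool) (et xi : List (ℕ × ℕ)) (j : ℕ) : E :=
  E.add (pE (sel b (et.getD (Nat.add (nat_lit 9) j) (0, 0)))) (E.add (sX wt (not b) xi (dX.getD j [])) (sV wt (not b) et (dV.getD j [])))

section
variable {A : Type*} [CommRing A] (x : ℕ → A)

theorem ev_sX (wt : ℕ) : ∀ (L : List (ℕ × ℕ)) (M : List ℕ),
    (sX wt true L M).ev x - (sX wt false L M).ev x = (List.zipWith (fun X d => sv x X * pv x d) L M).sum
  | [], M => by simp [sX]
  | _ :: _, [] => by simp [sX]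
  | X :: L, d :: M => by
    have ih := ev_sX wt L M
    rw [List.zipWith_cons_cons, List.sum_cons, ← ih]
    change (pv x X.1 * pv x d + (sX wt true L M).ev x) - (pv x X.2 * pv x d + (sX wt false L M).ev x) = _
    unfold sv
    ring

theorem ev_sV (wt : ℕ) (et : List (ℕ × ℕ)) : ∀ (M : List (ℕ × ℕ)),
    (sV wt true et M).ev x - (sV wt false et M).ev x = (M.map fun m => sv (cx x) (et.getD m.1 (0, 0)) * pv x m.2).sum
  | [] => by simp [sV]
  | m :: M => by
    have ih := ev_sV wt et M
    rw [List.map_cons, List.sum_cons, ← ih]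
    change ((pE (et.getD m.1 (0, 0)).1).ev x * pv x m.2 + (sV wt true et M).ev x) -
      ((pE (et.getD m.1 (0, 0)).2).ev x * pv x m.2 + (sV wt false et M).ev x) = _
    rw [ev_pE, ev_pE]
    unfold sv
    ring

/-- the identity from the equality of the two sides -/
theorem id_of_sd (wt : ℕ) (et xi : List (ℕ × ℕ)) (j : ℕ) (h : (sd wt true et xi j).ev x = (sd wt false et xi j).ev x) :
    sv (cx x) (et.getD (9 + j) (0, 0)) = (List.zipWith (fun X d => sv x X * pv x d) xi (dX.getD j [])).sum +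
      ((dV.getD j []).map fun m => sv (cx x) (et.getD m.1 (0, 0)) * pv x m.2).sum := by
  rw [← ev_sX x wt, ← ev_sV x wt]
  have h' : (pE (et.getD (9 + j) (0, 0)).1).ev x + ((sX wt false xi (dX.getD j [])).ev x + (sV wt false et (dV.getD j [])).ev x) =
      (pE (et.getD (9 + j) (0, 0)).2).ev x + ((sX wt true xi (dX.getD j [])).ev x + (sV wt true et (dV.getD j [])).ev x) := h
  rw [ev_pE, ev_pE] at h'
  unfold sv
  linear_combination h'

end

end Pool.Agent.LibLH10
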