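import Pool.Agent.LibLH10.A

set_option autoImplicit false

namespace Pool.Agent.LibLH10

open MvPolynomial Pool.Agent.Mond61 Pool.Agent.LibMV18

/-- weights: all 1 -/
def ul : List ℕ := [1, 1, 1, 1, 1, 1, 1, 1, 1, 1, 1, 1, 1]
def Tu : ℕ := 0x1000000010000000100000001000000010000000100000001000000010000000100000001000000010000000100000001
theorem Tu_ok : TabOK Tu ul := by
  unfold TabOK
  decide +kernel
def s4 : List ℕ := [0, 1, 5, 21, 55, 172, 387, 855, 1395, 3035, 4923, 8382, 11272]
def p4 : List (ℕ × ℕ) := [(0, 1), (1, 1), (5, 1), (21, 1), (55, 1), (172, 1), (387, 1), (855, 1), (1395, 1), (3035, 1), (4923, 1), (8382, 1), (11272, 1)]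
def T4 : ℕ := 0x2c08000020be0000133b00000bdb000005730000035700000183000000ac0000003700000015000000050000000100000000
theorem T4_ok : TabOK T4 s4 := by
  unfold TabOK
  decide +kernel
theorem inj4_3 : InjOK s4 ul 3 :=
  injChk_spec 9 33817 p4 3 (by decide) (by decide +kernel)
theorem inj4_4 : InjOK s4 ul 4 :=
  injChk_spec 11 45089 p4 4 (by decide) (by decide +kernel)

/-- check of one identity -/
noncomputable def lchk (wt : ℕ) (et xi : List (ℕ × ℕ)) (j : ℕ) : Bool :=
  cond (Nat.beq wt (nat_lit 1)) (eChk (nat_lit 10) T4 Tu (nat_lit 3) (sd wt true et xi j) (sd wt false et xi j))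
    (cond (Nat.beq wt (nat_lit 2)) (eChk (nat_lit 10) T4 Tu (nat_lit 4) (sd wt true et xi j) (sd wt false et xi j)) false)

/-- all checks for one field -/
noncomputable def lall (wt : ℕ) (et xi : List (ℕ × ℕ)) : Bool :=
  and (lchk wt et xi 0) (and (lchk wt et xi 1) (and (lchk wt et xi 2) (lchk wt et xi 3)))

theorem lchk_spec {A : Type*} [CommRing A] (x : ℕ → A) (wt : ℕ) (et xi : List (ℕ × ℕ)) (j : ℕ) (h : lchk wt et xi j = true) :
    sv (cx x) (et.getD (9 + j) (0, 0)) = (List.zipWith (fun X d => sv x X * pv x d) xi (dX.getD j [])).sum +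
      ((dV.getD j []).map fun m => sv (cx x) (et.getD m.1 (0, 0)) * pv x m.2).sum := by
  refine id_of_sd x wt et xi j ?_
  unfold lchk at h
  cases h1 : Nat.beq wt 1 with
  | true =>
    rw [h1] at h
    exact eChk_ev s4 ul T4 Tu 10 3 inj4_3 rfl T4_ok Tu_ok _ _ h x
  | false =>
    rw [h1] at h
    cases h2 : Nat.beq wt 2 with
    | true =>
      rw [h2] at h
      exact eChk_ev s4 ul T4 Tu 10 4 inj4_4 rfl T4_ok Tu_ok _ _ h x
    | false =>
      rw [h2] at h
      exact absurd h (by simp)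

theorem lall_spec {A : Type*} [CommRing A] (x : ℕ → A) (wt : ℕ) (et xi : List (ℕ × ℕ)) (h : lall wt et xi = true) (j : ℕ) (hj : j < 4) :
    sv (cx x) (et.getD (9 + j) (0, 0)) = (List.zipWith (fun X d => sv x X * pv x d) xi (dX.getD j [])).sum +
      ((dV.getD j []).map fun m => sv (cx x) (et.getD m.1 (0, 0)) * pv x m.2).sum := by
  unfold lall at h
  simp only [Bool.and_eq_true] at h
  obtain ⟨h0, h1, h2, h3⟩ := h
  interval_cases j
  · exact lchk_spec x wt et xi 0 h0
  · exact lchk_spec x wt et xi 1 h1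
  · exact lchk_spec x wt et xi 2 h2
  · exact lchk_spec x wt et xi 3 h3

end Pool.Agent.LibLH10
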