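import Pool.Agent.LibLH10.B
import Pool.Agent.LibMV18.Main0
import Pool.Agent.LibMX34.RDefs2

set_option autoImplicit false

namespace Pool.Agent.LibLH10

open MvPolynomial Pool.Agent.Mond61 Pool.Agent.LibMV18 Pool.Agent.LibMX34

/-- the source point: `v1 .. v9, x, y, z` (internal order) in `ℤ[x, y, z, v1 .. v9]` -/
noncomputable def x12 (d : ℕ) : MvPolynomial (Fin 12) ℤ := if d < 9 then X (Fin.ofNat 12 (d + 3)) else X (Fin.ofNat 12 (d - 9))

section
variable {A : Type*} [CommSemiring A] (x : ℕ → A)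

theorem tv_eq (c k a b d e f : ℕ) (hk : tk c = k) (h0 : td c 0 = a) (h1 : td c 1 = b) (h2 : td c 2 = d) (h3 : td c 3 = e)
    (h4 : td c 4 = f) : tv x c = (k : A) * (gx x a * gx x b * gx x d * gx x e * gx x f) := by
  unfold tv
  rw [hk, h0, h1, h2, h3, h4]

theorem gx_15 : gx x 15 = 1 := by unfold gx; simp

theorem gx_lt (d : ℕ) (hd : d < 13) : gx x d = x d := by unfold gx; rw [if_pos hd]

/-- terms with one or two digits -/
theorem tv_one (c k a : ℕ) (hk : tk c = k) (h0 : td c 0 = a) (h1 : td c 1 = 15) (h2 : td c 2 = 15) (h3 : td c 3 = 15)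
    (h4 : td c 4 = 15) (ha : a < 13) : tv x c = (k : A) * x a := by
  rw [tv_eq x c k a 15 15 15 15 hk h0 h1 h2 h3 h4, gx_15, gx_lt x a ha]
  ring

theorem tv_two (c k a b : ℕ) (hk : tk c = k) (h0 : td c 0 = a) (h1 : td c 1 = b) (h2 : td c 2 = 15) (h3 : td c 3 = 15)
    (h4 : td c 4 = 15) (ha : a < 13) (hb : b < 13) : tv x c = (k : A) * (x a * x b) := by
  rw [tv_eq x c k a b 15 15 15 hk h0 h1 h2 h3 h4, gx_15, gx_lt x a ha, gx_lt x b hb]
  ring

theorem pv_one (N c : ℕ) (h : tn N = 1) (h0 : tm N 0 = c) : pv x N = tv x c := by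
  unfold pv
  rw [h, Finset.sum_range_one, h0]

theorem pv_two (N c d : ℕ) (h : tn N = 2) (h0 : tm N 0 = c) (h1 : tm N 1 = d) : pv x N = tv x c + tv x d := by
  unfold pv
  rw [h, Finset.sum_range_succ, Finset.sum_range_one, h0, h1]

theorem pv_three (N c d e : ℕ) (h : tn N = 3) (h0 : tm N 0 = c) (h1 : tm N 1 = d) (h2 : tm N 2 = e) :
    pv x N = tv x c + tv x d + tv x e := by
  unfold pv
  rw [h, Finset.sum_range_succ, Finset.sum_range_succ, Finset.sum_range_one, h0, h1, h2]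

theorem pv_four (N c d e f : ℕ) (h : tn N = 4) (h0 : tm N 0 = c) (h1 : tm N 1 = d) (h2 : tm N 2 = e) (h3 : tm N 3 = f) :
    pv x N = tv x c + tv x d + tv x e + tv x f := by
  unfold pv
  rw [h, Finset.sum_range_succ, Finset.sum_range_succ, Finset.sum_range_succ, Finset.sum_range_one, h0, h1, h2, h3]

theorem pv_F0 : pv x (FN 9) = x 9 ^ 2 + x 0 * x 10 + x 1 * x 11 := by
  rw [pv_three x (FN 9) 0x1fff99 0x1fffa0 0x1fffb1 rfl rfl rfl rfl, tv_two x 0x1fff99 1 9 9 rfl rfl rfl rfl rfl rfl (by norm_num) (by norm_num),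
    tv_two x 0x1fffa0 1 0 10 rfl rfl rfl rfl rfl rfl (by norm_num) (by norm_num),
    tv_two x 0x1fffb1 1 1 11 rfl rfl rfl rfl rfl rfl (by norm_num) (by norm_num), Nat.cast_one]
  ring

theorem pv_F1 : pv x (FN 10) = x 10 ^ 2 + x 9 * x 11 + x 2 * x 9 + x 3 * x 11 := by
  rw [pv_four x (FN 10) 0x1fffaa 0x1fffb9 0x1fff92 0x1fffb3 rfl rfl rfl rfl rfl,
    tv_two x 0x1fffaa 1 10 10 rfl rfl rfl rfl rfl rfl (by norm_num) (by norm_num),
    tv_two x 0x1fffb9 1 9 11 rfl rfl rfl rfl rfl rfl (by norm_num) (by norm_num),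
    tv_two x 0x1fff92 1 2 9 rfl rfl rfl rfl rfl rfl (by norm_num) (by norm_num),
    tv_two x 0x1fffb3 1 3 11 rfl rfl rfl rfl rfl rfl (by norm_num) (by norm_num), Nat.cast_one]
  ring

theorem pv_F2 : pv x (FN 11) = x 11 ^ 2 + x 9 * x 10 + x 4 * x 9 + x 5 * x 10 := by
  rw [pv_four x (FN 11) 0x1fffbb 0x1fffa9 0x1fff94 0x1fffa5 rfl rfl rfl rfl rfl,
    tv_two x 0x1fffbb 1 11 11 rfl rfl rfl rfl rfl rfl (by norm_num) (by norm_num),
    tv_two x 0x1fffa9 1 9 10 rfl rfl rfl rfl rfl rfl (by norm_num) (by norm_num),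
    tv_two x 0x1fff94 1 4 9 rfl rfl rfl rfl rfl rfl (by norm_num) (by norm_num),
    tv_two x 0x1fffa5 1 5 10 rfl rfl rfl rfl rfl rfl (by norm_num) (by norm_num), Nat.cast_one]
  ring

theorem pv_F3 : pv x (FN 12) = x 10 * x 11 + x 6 * x 9 + x 7 * x 10 + x 8 * x 11 := by
  rw [pv_four x (FN 12) 0x1fffba 0x1fff96 0x1fffa7 0x1fffb8 rfl rfl rfl rfl rfl,
    tv_two x 0x1fffba 1 10 11 rfl rfl rfl rfl rfl rfl (by norm_num) (by norm_num),
    tv_two x 0x1fff96 1 6 9 rfl rfl rfl rfl rfl rfl (by norm_num) (by norm_num),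
    tv_two x 0x1fffa7 1 7 10 rfl rfl rfl rfl rfl rfl (by norm_num) (by norm_num),
    tv_two x 0x1fffb8 1 8 11 rfl rfl rfl rfl rfl rfl (by norm_num) (by norm_num), Nat.cast_one]
  ring

theorem pv_v (N c a : ℕ) (h : tn N = 1) (h0 : tm N 0 = c) (hk : tk c = 1) (h1 : td c 0 = a) (h2 : td c 1 = 15) (h3 : td c 2 = 15)
    (h4 : td c 3 = 15) (h5 : td c 4 = 15) (ha : a < 13) : pv x N = x a := by
  rw [pv_one x N c h h0, tv_one x c 1 a hk h1 h2 h3 h4 h5 ha, Nat.cast_one, one_mul]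

theorem pv_2v (N c a : ℕ) (h : tn N = 1) (h0 : tm N 0 = c) (hk : tk c = 2) (h1 : td c 0 = a) (h2 : td c 1 = 15) (h3 : td c 2 = 15)
    (h4 : td c 3 = 15) (h5 : td c 4 = 15) (ha : a < 13) : pv x N = 2 * x a := by
  rw [pv_one x N c h h0, tv_one x c 2 a hk h1 h2 h3 h4 h5 ha, Nat.cast_ofNat]

theorem pv_vv (N c d a b : ℕ) (h : tn N = 2) (h0 : tm N 0 = c) (h0' : tm N 1 = d) (hk : tk c = 1) (h1 : td c 0 = a) (h2 : td c 1 = 15)
    (h3 : td c 2 = 15) (h4 : td c 3 = 15) (h5 : td c 4 = 15) (hk' : tk d = 1) (g1 : td d 0 = b) (g2 : td d 1 = 15)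
    (g3 : td d 2 = 15) (g4 : td d 3 = 15) (g5 : td d 4 = 15) (ha : a < 13) (hb : b < 13) : pv x N = x a + x b := by
  rw [pv_two x N c d h h0 h0', tv_one x c 1 a hk h1 h2 h3 h4 h5 ha, tv_one x d 1 b hk' g1 g2 g3 g4 g5 hb, Nat.cast_one, one_mul, one_mul]

end

/-- the identity of `Lift`, component by component, from the checked identity -/
theorem zip3 {B : Type*} [AddCommMonoid B] (f : ℕ × ℕ → ℕ → B) (L : List (ℕ × ℕ)) (hL : L.length = 3) (d e g : ℕ) :
    (List.zipWith f L [d, e, g]).sum = f (L.getD 0 (0, 0)) d + f (L.getD 1 (0, 0)) e + f (L.getD 2 (0, 0)) g := by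
  match L, hL with
  | [a, b, c], _ => simp [add_assoc]

theorem FUs_xT (xT' : ℕ → MvPolynomial (Fin 13) ℤ) (h : ∀ d < 13, xT' d = if d < 9 then X (Fin.ofNat 13 (d + 4)) else X (Fin.ofNat 13 (d - 9)))
    (d : ℕ) (hd : d < 13) : FUs (xT' d) = cx x12 d := by
  rw [h d hd]
  unfold FUs
  interval_cases d
  · rw [if_pos (by norm_num), aeval_X]; rfl
  · rw [if_pos (by norm_num), aeval_X]; rfl
  · rw [if_pos (by norm_num), aeval_X]; rfl
  · rw [if_pos (by norm_num), aeval_X]; rfl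
  · rw [if_pos (by norm_num), aeval_X]; rfl
  · rw [if_pos (by norm_num), aeval_X]; rfl
  · rw [if_pos (by norm_num), aeval_X]; rfl
  · rw [if_pos (by norm_num), aeval_X]; rfl
  · rw [if_pos (by norm_num), aeval_X]; rfl
  · rw [if_neg (by norm_num), aeval_X]
    have e : cx x12 9 = pv x12 (FN 9) := rfl
    rw [e, pv_F0]
    rfl
  · rw [if_neg (by norm_num), aeval_X]
    have e : cx x12 10 = pv x12 (FN 10) := rfl
    rw [e, pv_F1]
    rfl
  · rw [if_neg (by norm_num), aeval_X]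
    have e : cx x12 11 = pv x12 (FN 11) := rfl
    rw [e, pv_F2]
    rfl
  · rw [if_neg (by norm_num), aeval_X]
    have e : cx x12 12 = pv x12 (FN 12) := rfl
    rw [e, pv_F3]
    rfl

end Pool.Agent.LibLH10
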