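import Pool.Agent.LibLH10.C

set_option autoImplicit false

namespace Pool.Agent.LibLH10

open MvPolynomial Pool.Agent.Mond61 Pool.Agent.LibMV18 Pool.Agent.LibMX34

/-- the identity `Lift` for one field with packed coefficients `et` (13 entries) and `xi` (3 entries) -/
theorem lift_of (wt : ℕ) (et xi : List (ℕ × ℕ)) (hxi : xi.length = 3) (h : lall wt et xi = true)
    (e : Fin 13 → MvPolynomial (Fin 13) ℤ) (he : ∀ t : Fin 13, FUs (e t) = sv (cx x12) (et.getD (if (t : ℕ) < 4 then (t : ℕ) + 9 else (t : ℕ) - 4) (0, 0)))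
    (ξ : Fin 3 → MvPolynomial (Fin 12) ℤ) (hξ : ∀ a : Fin 3, ξ a = sv x12 (xi.getD a (0, 0))) :
    ∀ j : Fin 4, FUs (e (ijO j)) = ∑ a : Fin 3, ξ a * pderiv (Fin.castLE (by omega) a : Fin 12) (FU j) +
      ∑ t, FUs (e (ivO t)) * pderiv (ivB t) (FU j) := by
  have hv : ∀ t : Fin 9, FUs (e (ivO t)) = sv (cx x12) (et.getD t (0, 0)) := by
    intro t
    rw [he]
    congr 2
    have : ((ivO t : Fin 13) : ℕ) = 4 + t := rfl
    rw [this, if_neg (by omega)]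
    omega
  have hY : ∀ j : Fin 4, FUs (e (ijO j)) = sv (cx x12) (et.getD (9 + j) (0, 0)) := by
    intro j
    rw [he]
    congr 2
    have : ((ijO j : Fin 13) : ℕ) = j := rfl
    rw [this, if_pos (by omega)]
    omega
  have hx9 : (x12 9 : MvPolynomial (Fin 12) ℤ) = X 0 := rfl
  have hx10 : (x12 10 : MvPolynomial (Fin 12) ℤ) = X 1 := rfl
  have hx11 : (x12 11 : MvPolynomial (Fin 12) ℤ) = X 2 := rfl
  have hx0 : (x12 0 : MvPolynomial (Fin 12) ℤ) = X 3 := rfl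
  have hx1 : (x12 1 : MvPolynomial (Fin 12) ℤ) = X 4 := rfl
  have hx2 : (x12 2 : MvPolynomial (Fin 12) ℤ) = X 5 := rfl
  have hx3 : (x12 3 : MvPolynomial (Fin 12) ℤ) = X 6 := rfl
  have hx4 : (x12 4 : MvPolynomial (Fin 12) ℤ) = X 7 := rfl
  have hx5 : (x12 5 : MvPolynomial (Fin 12) ℤ) = X 8 := rfl
  have hx6 : (x12 6 : MvPolynomial (Fin 12) ℤ) = X 9 := rfl
  have hx7 : (x12 7 : MvPolynomial (Fin 12) ℤ) = X 10 := rfl
  have hx8 : (x12 8 : MvPolynomial (Fin 12) ℤ) = X 11 := rfl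
  have c0 : (Fin.castLE (by omega) (0 : Fin 3) : Fin 12) = 0 := rfl
  have c1 : (Fin.castLE (by omega) (1 : Fin 3) : Fin 12) = 1 := rfl
  have c2 : (Fin.castLE (by omega) (2 : Fin 3) : Fin 12) = 2 := rfl
  have v0 : ivB 0 = 3 := rfl
  have v1 : ivB 1 = 4 := rfl
  have v2 : ivB 2 = 5 := rfl
  have v3 : ivB 3 = 6 := rfl
  have v4 : ivB 4 = 7 := rfl
  have v5 : ivB 5 = 8 := rfl
  have v6 : ivB 6 = 9 := rfl
  have v7 : ivB 7 = 10 := rfl
  have v8 : ivB 8 = 11 := rfl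
  have f0 : FU 0 = X 0 ^ 2 + X 3 * X 1 + X 4 * X 2 := rfl
  have f1 : FU 1 = X 1 ^ 2 + X 0 * X 2 + X 5 * X 0 + X 6 * X 2 := rfl
  have f2 : FU 2 = X 2 ^ 2 + X 0 * X 1 + X 7 * X 0 + X 8 * X 1 := rfl
  have f3 : FU 3 = X 1 * X 2 + X 9 * X 0 + X 10 * X 1 + X 11 * X 2 := rfl
  have px : pv x12 0x1ffff9001 = (X 0 : MvPolynomial (Fin 12) ℤ) :=
    (pv_v x12 0x1ffff9001 0x1ffff9 9 rfl rfl rfl rfl rfl rfl rfl rfl (by norm_num)).trans hx9
  have py : pv x12 0x1ffffa001 = (X 1 : MvPolynomial (Fin 12) ℤ) :=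
    (pv_v x12 0x1ffffa001 0x1ffffa 10 rfl rfl rfl rfl rfl rfl rfl rfl (by norm_num)).trans hx10
  have pz : pv x12 0x1ffffb001 = (X 2 : MvPolynomial (Fin 12) ℤ) :=
    (pv_v x12 0x1ffffb001 0x1ffffb 11 rfl rfl rfl rfl rfl rfl rfl rfl (by norm_num)).trans hx11
  intro j
  have key := lall_spec x12 wt et xi h j j.2
  rw [hY j, key]
  congr 1
  · rw [Fin.sum_univ_three, hξ, hξ, hξ, c0, c1, c2]
    change _ = sv x12 (xi.getD 0 (0, 0)) * _ + sv x12 (xi.getD 1 (0, 0)) * _ + sv x12 (xi.getD 2 (0, 0)) * _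
    fin_cases j
    · change (List.zipWith (fun X d => sv x12 X * pv x12 d) xi [0x2ffff9001, 0x1ffff0001, 0x1ffff1001]).sum = _
      rw [zip3 _ xi hxi]
      have e0 : pv x12 0x2ffff9001 = 2 * (X 0 : MvPolynomial (Fin 12) ℤ) := by
        rw [pv_2v x12 0x2ffff9001 0x2ffff9 9 rfl rfl rfl rfl rfl rfl rfl rfl (by norm_num), hx9]
      have e1 : pv x12 0x1ffff0001 = (X 3 : MvPolynomial (Fin 12) ℤ) :=
        (pv_v x12 0x1ffff0001 0x1ffff0 0 rfl rfl rfl rfl rfl rfl rfl rfl (by norm_num)).trans hx0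
      have e2 : pv x12 0x1ffff1001 = (X 4 : MvPolynomial (Fin 12) ℤ) :=
        (pv_v x12 0x1ffff1001 0x1ffff1 1 rfl rfl rfl rfl rfl rfl rfl rfl (by norm_num)).trans hx1
      rw [e0, e1, e2]
      change _ = _ * pderiv 0 (FU 0) + _ * pderiv 1 (FU 0) + _ * pderiv 2 (FU 0)
      rw [f0]
      simp [pderiv_X, Pi.single_apply]
    · change (List.zipWith (fun X d => sv x12 X * pv x12 d) xi [0x1ffff2001ffffb002, 0x2ffffa001, 0x1ffff3001ffff9002]).sum = _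
      rw [zip3 _ xi hxi]
      have e0 : pv x12 0x1ffff2001ffffb002 = (X 2 + X 5 : MvPolynomial (Fin 12) ℤ) := by
        rw [pv_vv x12 0x1ffff2001ffffb002 0x1ffffb 0x1ffff2 11 2 rfl rfl rfl rfl rfl rfl rfl rfl rfl rfl rfl rfl rfl rfl rfl (by norm_num) (by norm_num), hx11, hx2]
      have e1 : pv x12 0x2ffffa001 = 2 * (X 1 : MvPolynomial (Fin 12) ℤ) := by
        rw [pv_2v x12 0x2ffffa001 0x2ffffa 10 rfl rfl rfl rfl rfl rfl rfl rfl (by norm_num), hx10]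
      have e2 : pv x12 0x1ffff3001ffff9002 = (X 0 + X 6 : MvPolynomial (Fin 12) ℤ) := by
        rw [pv_vv x12 0x1ffff3001ffff9002 0x1ffff9 0x1ffff3 9 3 rfl rfl rfl rfl rfl rfl rfl rfl rfl rfl rfl rfl rfl rfl rfl (by norm_num) (by norm_num), hx9, hx3]
      rw [e0, e1, e2]
      change _ = _ * pderiv 0 (FU 1) + _ * pderiv 1 (FU 1) + _ * pderiv 2 (FU 1)
      rw [f1]
      simp [pderiv_X, Pi.single_apply]
    · change (List.zipWith (fun X d => sv x12 X * pv x12 d) xi [0x1ffff4001ffffa002, 0x1ffff5001ffff9002, 0x2ffffb001]).sum = _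
      rw [zip3 _ xi hxi]
      have e0 : pv x12 0x1ffff4001ffffa002 = (X 1 + X 7 : MvPolynomial (Fin 12) ℤ) := by
        rw [pv_vv x12 0x1ffff4001ffffa002 0x1ffffa 0x1ffff4 10 4 rfl rfl rfl rfl rfl rfl rfl rfl rfl rfl rfl rfl rfl rfl rfl (by norm_num) (by norm_num), hx10, hx4]
      have e1 : pv x12 0x1ffff5001ffff9002 = (X 0 + X 8 : MvPolynomial (Fin 12) ℤ) := by
        rw [pv_vv x12 0x1ffff5001ffff9002 0x1ffff9 0x1ffff5 9 5 rfl rfl rfl rfl rfl rfl rfl rfl rfl rfl rfl rfl rfl rfl rfl (by norm_num) (by norm_num), hx9, hx5]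
      have e2 : pv x12 0x2ffffb001 = 2 * (X 2 : MvPolynomial (Fin 12) ℤ) := by
        rw [pv_2v x12 0x2ffffb001 0x2ffffb 11 rfl rfl rfl rfl rfl rfl rfl rfl (by norm_num), hx11]
      rw [e0, e1, e2]
      change _ = _ * pderiv 0 (FU 2) + _ * pderiv 1 (FU 2) + _ * pderiv 2 (FU 2)
      rw [f2]
      simp [pderiv_X, Pi.single_apply]
    · change (List.zipWith (fun X d => sv x12 X * pv x12 d) xi [0x1ffff6001, 0x1ffff7001ffffb002, 0x1ffff8001ffffa002]).sum = _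
      rw [zip3 _ xi hxi]
      have e0 : pv x12 0x1ffff6001 = (X 9 : MvPolynomial (Fin 12) ℤ) :=
        (pv_v x12 0x1ffff6001 0x1ffff6 6 rfl rfl rfl rfl rfl rfl rfl rfl (by norm_num)).trans hx6
      have e1 : pv x12 0x1ffff7001ffffb002 = (X 2 + X 10 : MvPolynomial (Fin 12) ℤ) := by
        rw [pv_vv x12 0x1ffff7001ffffb002 0x1ffffb 0x1ffff7 11 7 rfl rfl rfl rfl rfl rfl rfl rfl rfl rfl rfl rfl rfl rfl rfl (by norm_num) (by norm_num), hx11, hx7]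
      have e2 : pv x12 0x1ffff8001ffffa002 = (X 1 + X 11 : MvPolynomial (Fin 12) ℤ) := by
        rw [pv_vv x12 0x1ffff8001ffffa002 0x1ffffa 0x1ffff8 10 8 rfl rfl rfl rfl rfl rfl rfl rfl rfl rfl rfl rfl rfl rfl rfl (by norm_num) (by norm_num), hx10, hx8]
      rw [e0, e1, e2]
      change _ = _ * pderiv 0 (FU 3) + _ * pderiv 1 (FU 3) + _ * pderiv 2 (FU 3)
      rw [f3]
      simp [pderiv_X, Pi.single_apply]
  · have hs : ∀ g : Fin 9 → MvPolynomial (Fin 12) ℤ, ∑ t, g t = g 0 + g 1 + g 2 + g 3 + g 4 + g 5 + g 6 + g 7 + g 8 := by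
      intro g
      simp [Fin.sum_univ_succ]
      ring
    rw [hs]
    simp only [hv, v0, v1, v2, v3, v4, v5, v6, v7, v8]
    fin_cases j
    · change sv (cx x12) (et.getD 0 (0, 0)) * pv x12 0x1ffffa001 + (sv (cx x12) (et.getD 1 (0, 0)) * pv x12 0x1ffffb001 + 0) = _
      rw [py, pz]
      simp [f0, pderiv_X, Pi.single_apply]
    · change sv (cx x12) (et.getD 2 (0, 0)) * pv x12 0x1ffff9001 + (sv (cx x12) (et.getD 3 (0, 0)) * pv x12 0x1ffffb001 + 0) = _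
      rw [px, pz]
      simp [f1, pderiv_X, Pi.single_apply]
    · change sv (cx x12) (et.getD 4 (0, 0)) * pv x12 0x1ffff9001 + (sv (cx x12) (et.getD 5 (0, 0)) * pv x12 0x1ffffa001 + 0) = _
      rw [px, py]
      simp [f2, pderiv_X, Pi.single_apply]
    · change sv (cx x12) (et.getD 6 (0, 0)) * pv x12 0x1ffff9001 + (sv (cx x12) (et.getD 7 (0, 0)) * pv x12 0x1ffffa001 +
        (sv (cx x12) (et.getD 8 (0, 0)) * pv x12 0x1ffffb001 + 0)) = _
      rw [px, py, pz]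
      simp [f3, pderiv_X, Pi.single_apply]
      try ring

end Pool.Agent.LibLH10
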