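import Pool.Agent.LibLH10.B
import Pool.Agent.LibMV18.F0
import Pool.Agent.LibMV18.F1
import Pool.Agent.LibMV18.F2
import Pool.Agent.LibMV18.F3
import Pool.Agent.LibMV18.F4

set_option autoImplicit false

namespace Pool.Agent.LibLH10

open Pool.Agent.LibMV18

/-- the lift of the field 0: coefficients of `∂/∂x, ∂/∂y, ∂/∂z` -/
def xi0 : List (ℕ × ℕ) :=
  [(0x1fff93001fff40001fff80003, 0x1fff95001fff21001fff71003),
    (0x3fffa9002fff91001fff94003fffbb002fffb2002fffb7002fff70003fff51002fff72001fff43001fff8300b, 0x2fff98001fffa3002fffa6002fffb0001fff00002fff20001fff31003fff85001fff77009),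
    (0x2fff97002fffa1001fffb5002fffb6001fff50001fff11002fff41003fff73001fff88009, 0x3fffb9002fff90001fff92003fffaa002fffa4002fffa8003fff30002fff81001fff52002fff84001fff7500b)]

theorem lk0 : lall 1 et0 xi0 = true := by
  decide +kernel

/-- the lift of the field 1: coefficients of `∂/∂x, ∂/∂y, ∂/∂z` -/
def xi1 : List (ℕ × ℕ) :=
  [(0x1fff10001, 0x3fff93001fff95002fff96001fff40001fff80005),
    (0x2fff98001fffa3002fffa6003fff20001fff31003fff85003fff77007, 0x3fffa9002fff91001fff94003fffbb003fff70003fff51001fff43001fff83008),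
    (0x2fffa4002fffa8001fffb5001fff41002fff84002fff88006, 0x2fffa1001fffb3001fff11001fff81004)]

theorem lk1 : lall 1 et1 xi1 = true := by
  decide +kernel

/-- the lift of the field 2: coefficients of `∂/∂x, ∂/∂y, ∂/∂z` -/
def xi2 : List (ℕ × ℕ) :=
  [(0x5fff96006fffa0006fffb1001fff40003fff80001fff21003fff71007, 0x2fff93002fff95002),
    (0x1fff94003fffbb006fffb7005fff20001fff43003fff77006, 0x9fffa9006fff98001fffa5001fffa6002fffb2003fff70002fff72003fff83003fff85009),
    (0x1fff92003fffaa006fffa8005fff41001fff52003fff88006, 0x9fffb9006fff97002fffa4001fffb3001fffb6003fff81003fff73002fff84003fff75009)]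

theorem lk2 : lall 1 et2 xi2 = true := by
  decide +kernel

/-- the lift of the field 3: coefficients of `∂/∂x, ∂/∂y, ∂/∂z` -/
def xi3 : List (ℕ × ℕ) :=
  [(0x4fff93003fff96006fffb1002fff21004fff71005, 0x6fff95001fff40001fff80003),
    (0x4fff91002fff98003fffa6004fffb7001fff20006fff51003fff85007fff77008, 0x3fffa9001fff94004fffa3001fffa5003fffbb004fffb0004fffb2002fff00005fff70002fff31004fff72001fff43001fff8300d),
    (0x2fff92006fffaa004fffa1002fffa4002fffa8004fffb5002fff50002fff11004fff41002fff81002fff52002fff8400c, 0x6fffb9004fff90008fff97003fffb6006fff30006fff73002fff75004fff88008)]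

theorem lk3 : lall 1 et3 xi3 = true := by
  decide +kernel

/-- the lift of the field 4: coefficients of `∂/∂x, ∂/∂y, ∂/∂z` -/
def xi4 : List (ℕ × ℕ) :=
  [(0x2fff94001fff98001fff31001fff51001fff61005, 0x1fff91001),
    (0x1fffa1001, 0x1fffa8002fffb3002fffb5002fffb6001fff30001fff50001fff60002fff73002fff75002fff7600a),
    (0x1fff96003fffba003fffa7003fff21001fff55001fff65003fff87007, 0x3fff99002fff93002fff95003fffa0002fffb4003fff80002fff53007)]

theorem lk4 : lall 1 et4 xi4 = true := by
  decide +kernel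

end Pool.Agent.LibLH10
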