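import Pool.Agent.LibLH10.B
import Pool.Agent.LibMV18.F5
import Pool.Agent.LibMV18.F6
import Pool.Agent.LibMV18.F7
import Pool.Agent.LibMV18.F8
import Pool.Agent.LibMV18.F9

set_option autoImplicit false

namespace Pool.Agent.LibLH10

open Pool.Agent.LibMV18

/-- the lift of the field 5: coefficients of `∂/∂x, ∂/∂y, ∂/∂z` -/
def xi5 : List (ℕ × ℕ) :=
  [(0x1fff94002fffa3002fffa6002fffb0002fff20001fff31001fff51003fff61002fff43009, 0x2fffa9001fff91002fffbb002fffb2002fffb7002fff72002fff86007),
    (0x1fffa1001fffa4002fff73001fff76004, 0x2fffa8002fff30001fff60002fff52001fff62005),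
    (0x1fff96003fffba001fffa7003fff21001fff42001fff33001fff63001fff74008, 0x3fff99002fff93002fff95001fffa0002fffa2001fffb4001fffb8001fff40003fff82002fff5300a)]

theorem lk5 : lall 1 et5 xi5 = true := by
  decide +kernel

/-- the lift of the field 6: coefficients of `∂/∂x, ∂/∂y, ∂/∂z` -/
def xi6 : List (ℕ × ℕ) :=
  [(0x1fff98002fffa3002fffa6002fffb0003fff20001fff70001fff61002fff43008, 0x2fffa9001fff91001fff94002fffbb002fffb2002fffb7001fff00001fff31001fff51002fff72002fff8600b),
    (0x2fff90001fffa4001fffa8002fff30002fff50001fff60006, 0x2fff92002fff97001fffa1002fffb3002fffb5002fffb6002fff32002fff52001fff62002fff73002fff75001fff7600c),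
    (0x2fff93002fff95002fff96002fffa2002fffa7001fffb4001fffb8001fff10001fff42001fff82001fff33002fff53001fff63001fff74001fff55001fff65001fff87011, 0x2fffa0001fffb1001fff40001fff80001fff21001fff71006)]

theorem lk6 : lall 1 et6 xi6 = true := by
  decide +kernel

/-- the lift of the field 7: coefficients of `∂/∂x, ∂/∂y, ∂/∂z` -/
def xi7 : List (ℕ × ℕ) :=
  [(0x2fff94006fffb0005fff20001fff70001fff31005fff61006, 0x6fffa9001fff91003fff98001fff00004),
    (0x2fff90002fff92001fffa1001fffa8003fff50004fff60006, 0x2fff97002fffb3004fffb6002fff30001fff32001fff73004fff76007),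
    (0x2fff96002fffa2001fff10002fff80004fff21002fff82001fff53002fff65008, 0x3fff99002fff93001fffa0002fffa7002fffb4001fffb8003fff40001fff71002fff87009)]

theorem lk7 : lall 1 et7 xi7 = true := by
  decide +kernel

/-- the lift of the field 8: coefficients of `∂/∂x, ∂/∂y, ∂/∂z` -/
def xi8 : List (ℕ × ℕ) :=
  [(0x4fffbb002fffb0004fffb2004fffb7004fff20001fff31005fff61004fff72004fff86009, 0x8fffa9002fff91001fff94004fffa3004fffa6001fff00002fff70001fff51004fff43009),
    (0xcfffb9002fff90008fff92004fff97006fffb3002fffb6002fff50002fff32004fff52002fff6200a, 0x3fffa4002fffa8002fffb5003fff60002fff75005),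
    (0x2fff95001fff10001fff21002fff71002fff82004fff53001fff55001fff87008, 0x3fff99002fff93003fff96009fffba005fffa0001fffa7001fffb1001fffb4001fffb8001fff40004fff80002fff42002fff33002fff63002fff74001fff65010)]

theorem lk8 : lall 1 et8 xi8 = true := by
  decide +kernel

/-- the lift of the field 9: coefficients of `∂/∂x, ∂/∂y, ∂/∂z` -/
def xi9 : List (ℕ × ℕ) :=
  [(0x2fff92001fff97001fff30001fff50001fff60005, 0x1fff90001),
    (0x1fff96003fffba003fffb8003fff40001fff33001fff63003fff87007, 0x3fff99002fff93002fff95002fffa2003fffb1003fff71002fff53007),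
    (0x1fffb0001, 0x2fffa3002fffa5002fffa6001fffb7001fff31001fff51001fff61002fff83002fff85002fff8600a)]

theorem lk9 : lall 1 et9 xi9 = true := by
  decide +kernel

end Pool.Agent.LibLH10
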