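import Pool.Agent.LibLH10.B
import Pool.Agent.LibMV18.F10
import Pool.Agent.LibMV18.F11
import Pool.Agent.LibMV18.F12
import Pool.Agent.LibMV18.F13

set_option autoImplicit false

namespace Pool.Agent.LibLH10

open Pool.Agent.LibMV18

/-- the lift of the field 10: coefficients of `∂/∂x, ∂/∂y, ∂/∂z` -/
def xi10 : List (ℕ × ℕ) :=
  [(0x1fff92002fffa1002fffb5002fffb6001fff30001fff50003fff60002fff41002fff52009, 0x2fffb9001fff90002fffaa002fffa4002fffa8002fff84002fff76007),
    (0x1fff96003fffba001fffb8003fff40001fff42001fff82001fff55001fff65008, 0x3fff99002fff93002fff95001fffa2001fffa7001fffb1002fffb4001fff21002fff53003fff7400a),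
    (0x1fffb0001fffb2002fff85001fff86004, 0x2fffb7002fff51001fff61002fff43001fff64005)]

theorem lk10 : lall 1 et10 xi10 = true := by
  decide +kernel

/-- the lift of the field 11: coefficients of `∂/∂x, ∂/∂y, ∂/∂z` -/
def xi11 : List (ℕ × ℕ) :=
  [(0x2fffb9001fff90001fff92002fffaa002fffa4002fffa8001fff30001fff50001fff11002fff84002fff7600b, 0x1fff97002fffa1002fffb5002fffb6001fff60003fff41001fff81002fff52008),
    (0x1fffa0002fffb1001fff40001fff80001fff21001fff71006, 0x2fff93002fff95002fff96001fffa2001fffa7002fffb4002fffb8001fff10001fff42001fff82001fff33002fff53001fff63001fff74001fff55001fff65001fff87011),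
    (0x2fff94002fff98002fffa3002fffa5002fffa6001fffb0002fff43002fff83002fff54001fff64002fff85001fff8600c, 0x2fff91001fffb2001fffb7002fff31002fff51001fff61006)]

theorem lk11 : lall 1 et11 xi11 = true := by
  decide +kernel

/-- the lift of the field 12: coefficients of `∂/∂x, ∂/∂y, ∂/∂z` -/
def xi12 : List (ℕ × ℕ) :=
  [(0x2fff92006fffa1001fff50005fff60005fff41001fff81006, 0x6fffb9001fff90003fff97001fff11004),
    (0x2fff96002fffb4001fff10004fff40002fff71001fff53002fff63002fff74008, 0x3fff99002fff95002fffa2001fffa7001fffb1002fffb8001fff80003fff21002fff87009),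
    (0x2fff91002fff94001fffb0001fffb7003fff31004fff61006, 0x2fff98002fffa5004fffa6002fff51001fff54001fff85004fff86007)]

theorem lk12 : lall 1 et12 xi12 = true := by
  decide +kernel

/-- the lift of the field 13: coefficients of `∂/∂x, ∂/∂y, ∂/∂z` -/
def xi13 : List (ℕ × ℕ) :=
  [(0x4fffaa002fffa1004fffa4004fffa8001fff50005fff60004fff41004fff84004fff76009, 0x8fffb9002fff90001fff92001fff97004fffb5004fffb6001fff30001fff11002fff81004fff5200a),
    (0x2fff93001fff10001fff40002fff80001fff33004fff53002fff74001fff87008, 0x3fff99002fff95003fff96009fffba001fffa0001fffa2002fffa7005fffb1001fffb8001fff21004fff71002fff42002fff82001fff63002fff55002fff65010),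
    (0xcfffa9002fff91008fff94004fff98006fffa5002fffa6002fff31004fff43002fff54002fff6400a, 0x2fffa3003fffb2003fffb7003fff61002fff83005)]

theorem lk13 : lall 1 et13 xi13 = true := by
  decide +kernel

end Pool.Agent.LibLH10
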