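import Pool.Agent.LibLH10.B
import Pool.Agent.LibMV18.F17
import Pool.Agent.LibMV18.F18
import Pool.Agent.LibMV18.F19

set_option autoImplicit false

namespace Pool.Agent.LibLH10

open Pool.Agent.LibMV18

/-- the lift of the field 17: coefficients of `∂/∂x, ∂/∂y, ∂/∂z` -/
def xi17 : List (ℕ × ℕ) :=
  [(0x1ffb90002ff920001ff961003ff943002ff964001ffaa0001ffb30001ff840001ff760001ff631001ff651001ff66100c, 0x1ffa99001ff994001ffa95001ffbb9002ff972001ff985001ff986001ff600001ff410001ff52000a),
    (0x1ff992001ffaa9003ffa94003ffa98002ff941001ff932001ff984001ff976001ffaa3003ffbba003ffba7002ffa72002ffa85001ffa86003ffa77003ffbb8003ffb21001ffb33003ffb87001ff630002ff650002ff660003ff721003ff541001ff843019, 0x2ffb99001ffb93003ffb95001ff960001ff952003ffba0003ffa70001ffa61001ffa43003ffb80003ffb53002ffb63002ffb65002ffb66003ff420003ff820001ff431001ff532001ff763002ff765002ff766015),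
    (0x1ffb94001ff966001ffba5003ffba6002ffa41002ffa52001ffa76001ffbbb001ffb43001ff610001ff411001ff521003ff621001ff841002ff852001ff655001ff665001ff876012, 0x3ff996001ffba9002ffa92001ffb91002ffb98001ff921002ff982002ff963002ff965002ffaaa001ffaa1002ffaa8002ffba3001ffa60002ffa84001ffb20001ffb31002ffb83002ffb64001ffb85001ff860001ff761002ff653002ff884018)]

theorem lk17 : lall 2 et17 xi17 = true := by
  decide +kernel

/-- the lift of the field 18: coefficients of `∂/∂x, ∂/∂y, ∂/∂z` -/
def xi18 : List (ℕ × ℕ) :=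
  [(0x1ff990002ffa94002ffa98001ff930001ff950001ff984002ffa20001ffa70001ffa51001ffbb1002ffb21002ffb71001ff530001ff740001ff721001ff541010, 0x1ffb99001ff992001ffaa9001ffa91003ffb93002ffb95002ffb96001ff960001ff952001ff973001ff975001ffba0001ffa00001ffb10001ffb80001ff400001ff210011),
    (0x2ff996005ffba9002ffb91004ff921003ff963002ff965001ffaaa003ffa84001ffa75002ffbbb003ffbb2002ffbb7001ffb31002ffb72002ff720003ff430003ff521001ff553003ff653013, 0x2ff999003ff993002ff995002ffb94002ffb98001ff942004ff982002ff953004ffba6001ffa50003ffa41002ffbb0002ffb20004ffb43001ffb83001ff200003ff852001ff772003ff743013),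
    (0x1ff994001ff998003ffa93001ffa95002ffa96003ffb90001ff920001ff961003ff943001ff954001ff964001ffaa0001ffba4001ffba8001ffa40001ffa80001ffa71003ffa53001ffa55002ffa65002ffb30001ffb50002ffb81001ff520001ff840001ff741001ff543001ff85501c, 0x1ff991001ffbb9003ffb92003ffb97001ff972001ff986001ffbaa001ffaa7001ffba1001ffa10001ffa74001ffa87001ffbb5001ffb11001ffb52002ffb73001ffb75001ffb88001ff410001ff551001ff752001ff874016)]

theorem lk18 : lall 2 et18 xi18 = true := by
  decide +kernel

/-- the lift of the field 19: coefficients of `∂/∂x, ∂/∂y, ∂/∂z` -/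
def xi19 : List (ℕ × ℕ) :=
  [(0x1ffb99001ff992001ffaa9001ffb93001ff973002ff984001ff976001ff210001ff611001ff43100a, 0x1ffa91001ff960002ff941003ff952002ff962001ffa51001ffbb1001ff630001ff650001ff660001ff721001ff86100c),
    (0x3ff996001ffba9001ffa90002ffa97002ffb94001ff940002ff963002ff974002ff965002ffba5001ffa50001ffa41002ffa62001ffa73002ffa75002ffbbb001ffbb0002ffbb7001ffb61002ffb72001ff860001ff761002ff772002ff653018, 0x1ffa92001ff966001ffaaa001ffba3003ffba6001ffa52002ffb20002ffb43001ffb86001ff200001ff610001ff720001ff430003ff640001ff633002ff743001ff663001ff876012),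
    (0x2ffa99003ffa93001ffa95001ff961001ff943003ffba1003ffa71003ffa53002ffa63002ffa65002ffa66001ffb60003ffb81001ffb52001ff520003ff421003ff741001ff543002ff863001ff865002ff866015, 0x1ff994001ffbb9003ffb92003ffb97002ff920001ff972001ff954001ff986003ffbaa003ffaa7003ffba8003ffa40001ffa55003ffa87001ffbb5002ffb73002ffb84001ffb76003ffb88003ff320003ff840002ff631001ff651002ff661001ff752019)]

theorem lk19 : lall 2 et19 xi19 = true := by
  decide +kernel

end Pool.Agent.LibLH10
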