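import Pool.Agent.LibLH10.D
import Pool.Agent.LibLH10.X0
import Pool.Agent.LibLH10.X1
import Pool.Agent.LibLH10.X2
import Pool.Agent.LibLH10.X3
import Pool.Agent.LibLH10.X4
import Pool.Agent.LibMV18.Main
import Pool.Agent.LibGF7.ExA

set_option autoImplicit false

/-! MP_ed98ad_ag: the 20 mother fields of `LibMV18` are liftable (`LibGF7.Lift`). -/

namespace Pool.Agent.LibLH10

open MvPolynomial Pool.Agent.Mond61 Pool.Agent.LibMV18 Pool.Agent.LibMX34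

/-- packed lifts -/
def xil : Fin 20 → List (ℕ × ℕ) :=
  ![xi0, xi1, xi2, xi3, xi4, xi5, xi6, xi7, xi8, xi9, xi10, xi11, xi12, xi13, xi14, xi15, xi16, xi17, xi18, xi19]

/-- coefficients of `∂/∂x, ∂/∂y, ∂/∂z` of the lift of the field `i` -/
noncomputable def xiP (i : Fin 20) (a : Fin 3) : MvPolynomial (Fin 12) ℤ := sv x12 ((xil i).getD a (0, 0))

theorem lk_all (i : Fin 20) : (xil i).length = 3 ∧ lall (flds i).wt (flds i).et (xil i) = true := by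
  fin_cases i
  · exact ⟨rfl, lk0⟩
  · exact ⟨rfl, lk1⟩
  · exact ⟨rfl, lk2⟩
  · exact ⟨rfl, lk3⟩
  · exact ⟨rfl, lk4⟩
  · exact ⟨rfl, lk5⟩
  · exact ⟨rfl, lk6⟩
  · exact ⟨rfl, lk7⟩
  · exact ⟨rfl, lk8⟩
  · exact ⟨rfl, lk9⟩
  · exact ⟨rfl, lk10⟩
  · exact ⟨rfl, lk11⟩
  · exact ⟨rfl, lk12⟩
  · exact ⟨rfl, lk13⟩
  · exact ⟨rfl, lk14⟩
  · exact ⟨rfl, lk15⟩
  · exact ⟨rfl, lk16⟩
  · exact ⟨rfl, lk17⟩
  · exact ⟨rfl, lk18⟩
  · exact ⟨rfl, lk19⟩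

theorem FUs_etaP (i : Fin 20) (t : Fin 13) : FUs (etaP i t) = sv (cx x12) (etaN i t) := by
  have h : ∀ N : ℕ, FUs (pv xT N) = pv (cx x12) N := by
    intro N
    have h1 := map_pv (FUs : MvPolynomial (Fin 13) ℤ →+* MvPolynomial (Fin 12) ℤ) xT N
    refine Eq.trans h1 (pv_congr (fun d hd => ?_) N)
    exact FUs_xT xT (fun d _ => rfl) d hd
  unfold etaP sv
  rw [map_sub, h, h]

theorem hlift (i : Fin 20) : LibGF7.Lift (etaP i) (xiP i) :=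
  lift_of (flds i).wt (flds i).et (xil i) (lk_all i).1 (lk_all i).2 (etaP i) (fun t => FUs_etaP i t) (xiP i) (fun _ => rfl)

end Pool.Agent.LibLH10
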